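import Pool.Agent.L0h98.RF.Def

/-! Project RF, module EXX (helper61): the expanded graph is an expander. -/

set_option autoImplicit false
set_option linter.all false

namespace Pool.Agent.L0h61.RF.Exx

open Finset Classical
open Pool.Agent.L0h98.RF
open Pool.Agent.H160R2.HF

theorem deg_sum {V E : Type} [Fintype V] [Fintype E] [DecidableEq V] [DecidableEq E]
    (B : OrGraph V E) : ∑ v, B.deg univ v = 2 * Fintype.card E := by
  unfold OrGraph.deg
  rw [Finset.sum_add_distrib, ← Finset.card_eq_sum_card_fiberwise (f := B.t) (s := univ)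
    (t := univ) (fun _ _ => by simp), ← Finset.card_eq_sum_card_fiberwise (f := B.h) (s := univ)
    (t := univ) (fun _ _ => by simp), Finset.card_univ]
  ring

theorem t_EXX : S_EXX := by
  intro V E _ _ _ _ B h3 lab Δ q hΔ hexp Xs hXs
  set D : V → ℕ := fun v => B.deg univ v with hD
  set c := (Ex B h3 lab).cut Xs with hc
  set X : Finset V := univ.filter fun v => ∀ j, (⟨v, j⟩ : Σ v, Fin (B.deg univ v - 2)) ∈ Xs with hX
  set Y : Finset V := univ.filter fun v =>
    (∃ j, (⟨v, j⟩ : Σ v, Fin (B.deg univ v - 2)) ∈ Xs) ∧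
    ∃ j, (⟨v, j⟩ : Σ v, Fin (B.deg univ v - 2)) ∉ Xs with hY
  have hcc : c.toLeft.card + c.toRight.card = c.card := Finset.card_toLeft_add_card_toRight
  -- mixed vertices
  have h1 : Y.card ≤ c.toRight.card := by
    have hsub : Y ⊆ c.toRight.image Sigma.fst := by
      intro v hv
      rw [hY, mem_filter] at hv
      obtain ⟨-, ⟨j1, hj1⟩, j2, hj2⟩ := hv
      by_contra hno
      have hno' : ∀ j, (Sum.inr ⟨v, j⟩ : E ⊕ Σ v, Fin (B.deg univ v - 3)) ∉ c := by
        intro j hj
        exact hno (mem_image.2 ⟨⟨v, j⟩, mem_toRight.2 hj, rfl⟩)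
      have h3v := h3 v
      have key : ∀ k (hk : k < B.deg univ v - 2),
          ((⟨v, ⟨k, hk⟩⟩ : Σ v, Fin (B.deg univ v - 2)) ∈ Xs ↔
            (⟨v, ⟨0, by omega⟩⟩ : Σ v, Fin (B.deg univ v - 2)) ∈ Xs) := by
        intro k
        induction k with
        | zero => exact fun _ => Iff.rfl
        | succ k ih =>
          intro hk
          rw [← ih (by omega)]
          have h := hno' ⟨k, by omega⟩
          rw [hc, OrGraph.cut, mem_filter, not_and, not_not] at h
          exact (h (mem_univ _)).symm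
      exact hj2 ((key j2.1 j2.2).2 ((key j1.1 j1.2).1 hj1))
    exact (card_le_card hsub).trans card_image_le
  -- the cut
  have h2 : (B.cut X).card ≤ c.toLeft.card + Y.card * Δ := by
    have hsub : B.cut X ⊆ c.toLeft ∪ Y.biUnion fun v =>
        (univ.filter fun e => B.t e = v) ∪ (univ.filter fun e => B.h e = v) := by
      intro e he
      rw [OrGraph.cut, mem_filter] at he
      rw [mem_union, mem_biUnion]
      by_contra hno
      rw [not_or] at hno
      obtain ⟨hno1, hno2⟩ := hno
      push Not at hno2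
      have ht : B.t e ∉ Y := fun h => hno2 _ h (mem_union_left _ (mem_filter.2 ⟨mem_univ _, rfl⟩))
      have hh : B.h e ∉ Y := fun h => hno2 _ h (mem_union_right _ (mem_filter.2 ⟨mem_univ _, rfl⟩))
      have hdich : ∀ v, v ∉ Y → v ∉ X → ∀ j,
          (⟨v, j⟩ : Σ v, Fin (B.deg univ v - 2)) ∉ Xs := by
        intro v hv hv' j hj
        apply hv'
        rw [hX, mem_filter]
        refine ⟨mem_univ _, fun j' => ?_⟩
        by_contra hj'
        exact hv (mem_filter.2 ⟨mem_univ _, ⟨j, hj⟩, j', hj'⟩)
      have hfull : ∀ v, v ∈ X → ∀ j, (⟨v, j⟩ : Σ v, Fin (B.deg univ v - 2)) ∈ Xs := by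
        intro v hv
        exact (mem_filter.1 hv).2
      apply hno1
      rw [mem_toLeft, hc, OrGraph.cut, mem_filter]
      refine ⟨mem_univ _, fun hiff => he.2 ?_⟩
      constructor
      · intro hx
        by_contra hx'
        exact hdich _ hh hx' _ (hiff.1 (hfull _ hx _))
      · intro hx
        by_contra hx'
        exact hdich _ ht hx' _ (hiff.2 (hfull _ hx _))
    refine (card_le_card hsub).trans ((card_union_le _ _).trans (Nat.add_le_add_left ?_ _))
    refine card_biUnion_le.trans ?_
    rw [← smul_eq_mul]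
    exact Finset.sum_le_card_nsmul _ _ _ fun v _ => (card_union_le _ _).trans (hΔ v)
  have h2' : (B.cut X).card ≤ (Δ + 1) * c.card := by
    calc (B.cut X).card ≤ c.toLeft.card + Y.card * Δ := h2
      _ ≤ c.card + c.card * Δ := Nat.add_le_add (by omega) (Nat.mul_le_mul_right _ (by omega))
      _ = _ := by ring
  have hYc : Y.card * Δ ≤ Δ * c.card := by
    rw [mul_comm]
    exact Nat.mul_le_mul_left _ (by omega)
  -- the two cases
  have hfinal : ∀ n : ℕ, n ≤ q * (B.cut X).card + Y.card * Δ →
      n ≤ ((q + 1) * (Δ + 1)) * c.card := by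
    intro n hn
    calc n ≤ q * (B.cut X).card + Y.card * Δ := hn
      _ ≤ q * ((Δ + 1) * c.card) + Δ * c.card :=
        Nat.add_le_add (Nat.mul_le_mul_left _ h2') hYc
      _ ≤ q * ((Δ + 1) * c.card) + Δ * c.card + c.card := Nat.le_add_right _ _
      _ = _ := by ring
  by_cases hcase : ∑ v ∈ X, B.deg univ v ≤ Fintype.card E
  · apply hfinal
    have hsub : Xs ⊆ (X ∪ Y).sigma fun v => (univ : Finset (Fin (B.deg univ v - 2))) := by
      rintro ⟨v, j⟩ hj
      rw [mem_sigma, mem_union]
      refine ⟨?_, mem_univ _⟩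
      by_cases hx : v ∈ X
      · exact Or.inl hx
      · right
        rw [hX, mem_filter, not_and] at hx
        have := hx (mem_univ _)
        push Not at this
        obtain ⟨j', hj'⟩ := this
        exact mem_filter.2 ⟨mem_univ _, ⟨j, hj⟩, j', hj'⟩
    have h4 := card_le_card hsub
    rw [card_sigma] at h4
    calc Xs.card ≤ _ := h4
      _ ≤ ∑ v ∈ X ∪ Y, B.deg univ v := Finset.sum_le_sum fun v _ => by
          rw [card_univ, Fintype.card_fin]; omega
      _ ≤ ∑ v ∈ X, B.deg univ v + ∑ v ∈ Y, B.deg univ v := by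
          rw [← Finset.sum_union_inter]
          exact Nat.le_add_right _ _
      _ ≤ q * (B.cut X).card + Y.card * Δ := by
          refine Nat.add_le_add (hexp X hcase) ?_
          rw [← smul_eq_mul]
          exact Finset.sum_le_card_nsmul _ _ _ fun v _ => hΔ v
  · apply hfinal
    refine le_trans ?_ (Nat.le_add_right _ _)
    have hs := deg_sum B
    have hs2 : ∑ v ∈ X, B.deg univ v + ∑ v ∈ Xᶜ, B.deg univ v = 2 * Fintype.card E := by
      rw [← hs, Finset.sum_add_sum_compl]
    have h5 : ∑ v ∈ Xᶜ, B.deg univ v ≤ Fintype.card E := by omega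
    have h6 := hexp Xᶜ h5
    have h7 : B.cut Xᶜ = B.cut X := by
      unfold OrGraph.cut
      ext e
      simp only [mem_filter, mem_univ, true_and, mem_compl]
      tauto
    rw [h7] at h6
    have hsub : Xsᶜ ⊆ Xᶜ.sigma fun v => (univ : Finset (Fin (B.deg univ v - 2))) := by
      rintro ⟨v, j⟩ hj
      rw [mem_compl] at hj
      rw [mem_sigma, mem_compl]
      exact ⟨fun hx => hj ((mem_filter.1 hx).2 j), mem_univ _⟩
    have h8 := card_le_card hsub
    rw [card_sigma] at h8
    have h9 := card_compl_add_card Xs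
    calc Xs.card ≤ Xsᶜ.card := by omega
      _ ≤ _ := h8
      _ ≤ ∑ v ∈ Xᶜ, B.deg univ v := Finset.sum_le_sum fun v _ => by
          rw [card_univ, Fintype.card_fin]; omega
      _ ≤ _ := h6

end Pool.Agent.L0h61.RF.Exx
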